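import Pool.Agent.Helper12.NK.St
import Pool.Agent.Helper51.AJ.Basic
import Pool.Agent.Helper35.PM.M_TOP2
import Pool.Agent.Helper35.PM.M_GRID
import Pool.Agent.Helper35.PM.M_MIN

/-!
# Module KUR of project NK (MP_d63854_co): Kuratowski's theorem (Wagner's form) for 3-connected graphs
-/

set_option autoImplicit false

namespace Pool.Agent.Helper8.NK

open Pool.Agent.Helper12.NK
open Pool.Agent.Helper51.AJ (IsMinor Planar Apex ExMinor Con Tch con_singleton)
open Pool.Agent.Helper35.PM (Rot)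
open Pool.Agent.Helper16.OddPack (GridAdj GridMinor)

/-- the branch sets of `K₄` in the `3 × 3` grid -/
def arc : Fin 4 → Finset (ℕ × ℕ) :=
  ![{(1, 1)}, {(0, 1), (0, 2)}, {(1, 2), (2, 2), (2, 1)}, {(2, 0), (1, 0), (0, 0)}]

instance : DecidableRel GridAdj := fun p q =>
  inferInstanceAs (Decidable ((p.1 = q.1 ∧ (p.2 + 1 = q.2 ∨ q.2 + 1 = p.2)) ∨
    (p.2 = q.2 ∧ (p.1 + 1 = q.1 ∨ q.1 + 1 = p.1))))

theorem arc_lt : ∀ i, ∀ p ∈ arc i, p.1 < 3 ∧ p.2 < 3 := by decide

theorem arc_ne : ∀ i, (arc i).Nonempty := by decide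

theorem arc_dis : ∀ i j, i ≠ j → ∀ p ∈ arc i, p ∉ arc j := by decide

theorem arc_adj : ∀ i j, i ≠ j → ∃ p ∈ arc i, ∃ q ∈ arc j, GridAdj p q := by decide

theorem arc_con : ∀ i, ∀ p ∈ arc i, ∀ q ∈ arc i, p = q ∨ GridAdj p q ∨ ∃ r ∈ arc i, GridAdj p r ∧ GridAdj r q := by
  decide

/-- a graph with four vertices (and isolated vertices) is planar -/
theorem base (V : Type) [Finite V] (G : SimpleGraph V) (U : Set V) (hU : U.ncard = 4) : RPlanar (rst G U) := by
  classical
  have h2 : Pool.Agent.Helper35.PM.StTop2 :=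
    Pool.Agent.Helper35.PM.M_TOP2.main Pool.Agent.Helper35.PM.M_GRID.main Pool.Agent.Helper35.PM.M_MIN.main
  apply h2
  have hc : Nat.card U = 4 := hU
  obtain ⟨e⟩ : Nonempty (U ≃ Fin 4) := ⟨Finite.equivFinOfCardEq hc⟩
  let k : V ≃ Fin (Nat.card V) := Finite.equivFin V
  let B : V → Set (ℕ × ℕ) := fun v => if h : v ∈ U then {p | p ∈ arc (e ⟨v, h⟩)} else {(3 + (k v).val, 0)}
  have hB1 : ∀ v (h : v ∈ U), B v = {p | p ∈ arc (e ⟨v, h⟩)} := fun v h => dif_pos h
  have hB2 : ∀ v, v ∉ U → B v = {(3 + (k v).val, 0)} := fun v h => dif_neg h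
  refine ⟨3 + Nat.card V, B, ?_, ?_, ?_, ?_, ?_⟩
  · intro v p hp
    by_cases h : v ∈ U
    · rw [hB1 v h] at hp
      have := arc_lt _ p hp
      omega
    · rw [hB2 v h] at hp
      rw [Set.mem_singleton_iff] at hp
      subst hp
      have := (k v).isLt
      constructor
      · show 3 + (k v).val < 3 + Nat.card V
        omega
      · show 0 < 3 + Nat.card V
        omega
  · intro v
    by_cases h : v ∈ U
    · rw [hB1 v h]
      obtain ⟨p, hp⟩ := arc_ne (e ⟨v, h⟩)
      exact ⟨p, hp⟩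
    · rw [hB2 v h]
      exact Set.singleton_nonempty _
  · intro v p hp q hq
    by_cases h : v ∈ U
    · have hb := hB1 v h
      rw [hb] at hp hq
      have hmem : ∀ x, x ∈ arc (e ⟨v, h⟩) → x ∈ B v := fun x hx => by rw [hb]; exact hx
      rcases arc_con _ p hp q hq with h1 | h1 | ⟨r, hr, h1, h2⟩
      · rw [h1]
      · exact Relation.ReflTransGen.single ⟨hmem p hp, hmem q hq, h1⟩
      · exact (Relation.ReflTransGen.single ⟨hmem p hp, hmem r hr, h1⟩).tail ⟨hmem r hr, hmem q hq, h2⟩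
    · rw [hB2 v h, Set.mem_singleton_iff] at hp hq
      rw [hp, hq]
  · intro u v huv
    rw [Set.disjoint_left]
    intro p hp hq
    by_cases h : u ∈ U <;> by_cases h' : v ∈ U
    · rw [hB1 u h] at hp
      rw [hB1 v h'] at hq
      refine arc_dis _ _ ?_ p hp hq
      intro heq
      exact huv (congrArg Subtype.val (e.injective heq))
    · rw [hB1 u h] at hp
      rw [hB2 v h', Set.mem_singleton_iff] at hq
      have := arc_lt _ p hp
      rw [hq] at this
      have h3 : 3 + (k v).val < 3 := this.1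
      omega
    · rw [hB1 v h'] at hq
      rw [hB2 u h, Set.mem_singleton_iff] at hp
      have := arc_lt _ p hq
      rw [hp] at this
      have h3 : 3 + (k u).val < 3 := this.1
      omega
    · rw [hB2 u h, Set.mem_singleton_iff] at hp
      rw [hB2 v h', Set.mem_singleton_iff] at hq
      rw [hp] at hq
      have h3 : 3 + (k u).val = 3 + (k v).val := (Prod.mk.inj hq).1
      exact huv (k.injective (Fin.ext (by omega)))
  · rintro u v ⟨hadj, hu, hv⟩
    rw [hB1 u hu, hB1 v hv]
    refine arc_adj _ _ ?_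
    intro heq
    exact G.ne_of_adj hadj (congrArg Subtype.val (e.injective heq))

theorem hKUR : StKCA → StCMB → StCRX → StFCY → StRDN → StINT → StCTR → StKUR := by
  intro hKCA hCMB hCRX hFCY hRDN hINT hCTR
  have main : ∀ (n : ℕ) (V : Type) [Finite V] (G : SimpleGraph V) (U : Set V), U.ncard = n → Kc 3 G U →
      Planar (rst G U) → RPlanar (rst G U) := by
    intro n
    induction n with
    | zero =>
      intro V _ G U hU hK _
      have := hK.1
      omega
    | succ n ih =>
      intro V _ G U hU hK hP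
      have h3 := hK.1
      rcases Nat.lt_or_ge n 4 with hn | hn
      · exact base V G U (by omega)
      obtain ⟨u, hu, v, hv, huv, hK1⟩ := hCTR V G U hK (by omega)
      have hne : u ≠ v := G.ne_of_adj huv
      have hP1 : Planar (rst (cnt G u v) (U \ {v})) :=
        (hKCA V G U).2.2.2.2.2.2.2 u hu v hv huv hP
      have hcard : (U \ {v}).ncard = n := by
        rw [Set.ncard_sdiff_singleton_of_mem hv]
        omega
      obtain ⟨R₁⟩ := ih V (cnt G u v) (U \ {v}) hcard hK1 hP1
      have huU : u ∈ U \ {v} := ⟨hu, hne⟩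
      obtain ⟨R', d', hd'⟩ := hRDN V (cnt G u v) (U \ {v}) u R₁ hK1 huU
      have hK2 : Kc 2 (cnt G u v) ((U \ {v}) \ {u}) := (hKCA V (cnt G u v) (U \ {v})).2.1 2 hK1 u
      obtain ⟨⟨m, c, hc, hrange, -⟩, -⟩ := hFCY V (cnt G u v) ((U \ {v}) \ {u}) R' hK2 d'
      -- adjacency in H
      have hH : ∀ a b, (rst (cnt G u v) ((U \ {v}) \ {u})).Adj a b ↔
          (G.Adj a b ∧ a ∈ U ∧ b ∈ U ∧ a ≠ u ∧ b ≠ u ∧ a ≠ v ∧ b ≠ v) := by
        intro a b
        constructor
        · rintro ⟨⟨-, hav, hbv, h⟩, ⟨⟨haU, -⟩, hau⟩, ⟨⟨hbU, -⟩, hbu⟩⟩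
          rcases h with h | h | h
          · exact ⟨h, haU, hbU, hau, hbu, hav, hbv⟩
          · exact absurd h.1 hau
          · exact absurd h.1 hbu
        · rintro ⟨h, haU, hbU, hau, hbu, hav, hbv⟩
          exact ⟨⟨G.ne_of_adj h, hav, hbv, Or.inl h⟩, ⟨⟨haU, hav⟩, hau⟩, ⟨⟨hbU, hbv⟩, hbu⟩⟩
      have hcadj : ∀ j, (rst (cnt G u v) ((U \ {v}) \ {u})).Adj (c j) (c (j + 1)) := by
        intro j
        obtain ⟨e, -, he, -, -⟩ := hc.2.2 j
        have h := e.adj
        rw [he] at h
        exact h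
      have hcj : ∀ j, c j ∈ U ∧ c j ≠ u ∧ c j ≠ v := fun j => by
        have h := (hH _ _).1 (hcadj j)
        exact ⟨h.2.1, h.2.2.2.1, h.2.2.2.2.2.1⟩
      let A : Set V := {b | b ∈ U ∧ b ≠ u ∧ b ≠ v ∧ G.Adj u b}
      let B : Set V := {b | b ∈ U ∧ b ≠ u ∧ b ≠ v ∧ G.Adj v b}
      have hA : A ⊆ Set.range c := by
        rintro b ⟨hbU, hbu, hbv, hub⟩
        rw [hrange]
        exact hd' b ⟨hbU, hbv⟩ ⟨Ne.symm hbu, hne, hbv, Or.inl hub⟩
      have hB : B ⊆ Set.range c := by
        rintro b ⟨hbU, hbu, hbv, hvb⟩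
        rw [hrange]
        exact hd' b ⟨hbU, hbv⟩ ⟨Ne.symm hbu, hne, hbv, Or.inr (Or.inl ⟨rfl, hvb⟩)⟩
      rcases hCMB V m c A B hc.1 hc.2.1 hA hB with hN | hX
      · have hR : RPlanar (add (add (rst (cnt G u v) ((U \ {v}) \ {u})) u A) v (insert u B)) := by
          refine hINT V _ R' m c u v A B hc hne ?_ ?_ hA hB hN
          · intro x hx
            exact ((hH _ _).1 hx).2.2.2.1 rfl
          · intro x hx
            exact ((hH _ _).1 hx).2.2.2.2.2.1 rfl
        refine Pool.Agent.Helper35.PM.Planar.mono hR ?_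
        intro a b hab
        obtain ⟨hadj, haU, hbU⟩ := hab
        have hab' := G.ne_of_adj hadj
        by_cases hav : a = v
        · subst hav
          refine Or.inr (Or.inl ⟨rfl, ?_, Ne.symm hab'⟩)
          by_cases hbu : b = u
          · exact Or.inl hbu
          · exact Or.inr ⟨hbU, hbu, Ne.symm hab', hadj⟩
        by_cases hbv : b = v
        · subst hbv
          refine Or.inr (Or.inr ⟨rfl, ?_, hab'⟩)
          by_cases hau : a = u
          · exact Or.inl hau
          · exact Or.inr ⟨haU, hau, hab', hadj.symm⟩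
        refine Or.inl ?_
        by_cases hau : a = u
        · subst hau
          exact Or.inr (Or.inl ⟨rfl, ⟨hbU, Ne.symm hab', hbv, hadj⟩, Ne.symm hab'⟩)
        by_cases hbu : b = u
        · subst hbu
          exact Or.inr (Or.inr ⟨rfl, ⟨haU, hab', hav, hadj.symm⟩, hab'⟩)
        exact Or.inl ((hH a b).2 ⟨hadj, haU, hbU, hau, hbu, hav, hbv⟩)
      · exfalso
        have hX' : Crs m (fun i : ZMod m => i) {i | c i ∈ A} {i | c i ∈ B} := by
          rcases hX with ⟨i, r, s, t, h1, h2, h3, h4, h5, h6, h7, h8⟩ | ⟨x, y, z, hxy, hyz, hxz, hxA, hxB, hyA, hyB, hzA, hzB⟩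
          · exact Or.inl ⟨i, r, s, t, h1, h2, h3, h4, h5, h6, h7, h8⟩
          · obtain ⟨x', rfl⟩ := hA hxA
            obtain ⟨y', rfl⟩ := hA hyA
            obtain ⟨z', rfl⟩ := hA hzA
            refine Or.inr ⟨x', y', z', ?_, ?_, ?_, hxA, hxB, hyA, hyB, hzA, hzB⟩
            · exact fun h => hxy (congrArg c h)
            · exact fun h => hyz (congrArg c h)
            · exact fun h => hxz (congrArg c h)
        refine (hCRX V (rst G U) m (fun i => {c i}) {u} {v} {i | c i ∈ A} {i | c i ∈ B} hc.1 ?_ ?_ ?_ ?_ ?_ ?_ ?_ ?_ ?_ ?_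
          hX').1 ?_ hP
        · exact fun i => con_singleton _ _
        · intro i j hij
          rw [Set.disjoint_singleton]
          exact fun h => hij (hc.2.1 h)
        · intro i
          have h := (hH _ _).1 (hcadj i)
          exact ⟨c i, rfl, c (i + 1), rfl, h.1, h.2.1, h.2.2.1⟩
        · exact con_singleton _ _
        · exact con_singleton _ _
        · rw [Set.disjoint_singleton]
          exact hne
        · intro i
          rw [Set.disjoint_singleton]
          exact Ne.symm (hcj i).2.1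
        · intro i
          rw [Set.disjoint_singleton]
          exact Ne.symm (hcj i).2.2
        · intro i hi
          exact ⟨u, rfl, c i, rfl, hi.2.2.2, hu, hi.1⟩
        · intro i hi
          exact ⟨v, rfl, c i, rfl, hi.2.2.2, hv, hi.1⟩
        · exact ⟨u, rfl, v, rfl, huv, hu, hv⟩
  intro V _ G U hK hP
  exact main _ V G U rfl hK hP

end Pool.Agent.Helper8.NK
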